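import Pool.Agent.V11131.PosComp7

/-!
# MP_4d599e_an: no intermediate classes `G(A)` for unital C*-algebras

For every nonzero unital C*-algebra `A`, the class `G(A)` of graphs all of whose partially positive
matrices over `A` have a positive completion is either the class of all chordal graphs (exactly
when `K_3^{(0)} ∈ G(A)`) or the class of all disjoint unions of complete graphs.
-/

namespace Pool.Agent.Results.MP_4d599e_an.UnitalDichotomy

open Pool.Agent.V11131.PosComp

universe u

theorem result (A : Type u) [CStarAlgebra A] [PartialOrder A] [StarOrderedRing A]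
    [Nontrivial A] :
    (InG A pathThree ∧ ∀ (n : ℕ) (Γ : SimpleGraph (Fin n)), InG A Γ ↔ Chordal Γ) ∨
    (¬ InG A pathThree ∧ ∀ (n : ℕ) (Γ : SimpleGraph (Fin n)), InG A Γ ↔ IsCluster Γ) := by
  by_cases h : InG A pathThree
  · exact Or.inl ⟨h, fun n Γ => main h Γ⟩
  · exact Or.inr ⟨h, fun n Γ => main_not h Γ⟩

end Pool.Agent.Results.MP_4d599e_an.UnitalDichotomy
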